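import Mathlib
import Pool.Agent.R653.Lys.Epi

/-!
# An epiRegular group without rational cross section

The group is the ascending HNN extension `⟨H, t | t g t⁻¹ = σ(g)⟩` of Grigorchuk's first group `H`
along the injective Lysenok endomorphism `σ : a ↦ aca, b ↦ d, c ↦ b, d ↦ c`.
-/

namespace Pool.Agent.Results.MP_cfc732_al.EpiNotCross

open Pool.Agent.R701.Grig Pool.Agent.R653.Lys

section Defs

variable {G : Type} [Group G]

/-- The evaluation map: the product in `G` of the letters of a word over a finite subset `S`. -/
def ev {S : Finset G} (w : List S) : G := (w.map (fun x : S => (x : G))).prod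

/-- `G` is epiRegular: for some finite subset `S` generating `G` as a monoid there is a regular
language `L ⊆ S⁺` whose image under evaluation is `G \ {1}`. -/
def EpiRegular (G : Type) [Group G] : Prop :=
  ∃ S : Finset G, Submonoid.closure (S : Set G) = ⊤ ∧
    ∃ L : Language S, L.IsRegular ∧ [] ∉ L ∧ ev '' {w | w ∈ L} = {g : G | g ≠ 1}

/-- `G` has a rational cross section: for some finite subset `S` generating `G` as a monoid there
is a regular language `L ⊆ S*` on which evaluation is a bijection onto `G`. -/
def HasRationalCrossSection (G : Type) [Group G] : Prop :=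
  ∃ S : Finset G, Submonoid.closure (S : Set G) = ⊤ ∧
    ∃ L : Language S, L.IsRegular ∧ Set.BijOn ev {w | w ∈ L} Set.univ

end Defs

theorem not_cross : ¬ HasRationalCrossSection Γ := by
  rintro ⟨S, -, L, hL, hbij⟩
  refine no_cross (fun x : S => (x : Γ)) L hL ?_ ?_
  · intro u hu v hv h
    exact hbij.injOn hu hv h
  · intro h
    obtain ⟨w, hw, hw'⟩ := hbij.surjOn (Set.mem_univ (ι h))
    exact ⟨w, hw, hw'⟩

theorem epi : EpiRegular Γ := by
  classical
  let S : Finset Γ := Finset.univ.image va
  have hS : ∀ x : S, ∃ y : Al, va y = x := by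
    rintro ⟨x, hx⟩
    obtain ⟨y, -, hy⟩ := Finset.mem_image.1 hx
    exact ⟨y, hy⟩
  choose f hf using hS
  let v : Al → S := fun y => ⟨va y, Finset.mem_image.2 ⟨y, Finset.mem_univ _, rfl⟩⟩
  have hfv : ∀ y, f (v y) = y := fun y => va_injective (hf (v y))
  have hev : ∀ w : List S, ev w = evl va (w.map f) := by
    intro w
    induction w with
    | nil => rfl
    | cons x w ih =>
      rw [List.map_cons, evl_cons, ← ih, hf]
      simp [ev]
  have hmap : ∀ u : List Al, (u.map v).map f = u := by
    intro u
    rw [List.map_map]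
    conv_rhs => rw [← List.map_id u]
    exact List.map_congr_left fun y _ => hfv y
  refine ⟨S, ?_, {w | w.map f ∈ LL}, ?_, ?_, ?_⟩
  · rw [eq_top_iff]
    intro γ _
    have : ∃ u : List Al, evl va u = γ := by
      by_cases h : γ = 1
      · exact ⟨[], h.symm⟩
      · obtain ⟨w, -, hw⟩ := LL_complete h
        exact ⟨w, hw⟩
    obtain ⟨u, rfl⟩ := this
    apply Submonoid.list_prod_mem
    intro x hx
    obtain ⟨y, -, rfl⟩ := List.mem_map.1 hx
    exact Submonoid.subset_closure (Finset.mem_coe.2 (v y).2)
  · obtain ⟨M, hM, g, hg⟩ := rfin_LL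
    apply Pool.Agent.H643R2.BX.RFin.isRegular
    refine ⟨M, hM, fun w => g (w.map f), ?_⟩
    intro u u' h s
    have := hg _ _ h (s.map f)
    rw [← List.map_append, ← List.map_append] at this
    exact this
  · intro h
    exact nil_notMem h
  · ext γ
    constructor
    · rintro ⟨w, hw, rfl⟩
      rw [hev]
      exact LL_sound hw
    · intro h
      obtain ⟨u, hu, rfl⟩ := LL_complete h
      refine ⟨u.map v, ?_, ?_⟩
      · change (u.map v).map f ∈ LL
        rw [hmap]; exact hu
      · rw [hev, hmap]

/-- There is a finitely generated group which is epiRegular but has no rational cross section. -/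
theorem result : ∃ (G : Type) (_ : Group G), Group.FG G ∧ EpiRegular G ∧
    ¬ HasRationalCrossSection G := by
  refine ⟨Γ, inferInstance, ?_, epi, not_cross⟩
  obtain ⟨S, hS, -⟩ := epi
  refine Group.fg_def.2 ⟨S, ?_⟩
  rw [eq_top_iff]
  intro g _
  have hg : g ∈ Submonoid.closure (S : Set Γ) := by rw [hS]; trivial
  have hle : Submonoid.closure (S : Set Γ) ≤ (Subgroup.closure (S : Set Γ)).toSubmonoid :=
    Submonoid.closure_le.2 Subgroup.subset_closure
  exact hle hg

end Pool.Agent.Results.MP_cfc732_al.EpiNotCross
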